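import Pool.Agent.BSv.Main

/-!
# MP_131163_pr: the annealed survival probability up to a factor `exp (O (t ^ (1/4)))`

For all `ν, a > 0` there is a constant `C` such that for planar Brownian motion `Z = (X, Y)` and all
`t ≥ 1`

  `|log E[exp (-ν |W_t^a|)] + c(2,ν) √t| ≤ C t^(1/4)`.
-/

open MeasureTheory ProbabilityTheory Pool.Agent.BSv
open scoped ENNReal NNReal

noncomputable section

namespace Pool.Agent.Results.MP_131163_pr.SecondOrder

theorem result (ν a : ℝ) (hν : 0 < ν) (ha : 0 < a) :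
    ∃ C : ℝ, ∀ (Ω : Type) [MeasurableSpace Ω] (P : Measure Ω) (X Y : ℝ≥0 → Ω → ℝ),
      IsBrownianReal X P → IsBrownianReal Y P →
      IndepFun (fun o t => X t o) (fun o t => Y t o) P → ∀ t : ℝ≥0, 1 ≤ t →
      (∀ᵐ o ∂P, volume (sausage X Y a t o) ≠ ⊤) ∧
      Integrable (fun o => Real.exp (-ν * (volume (sausage X Y a t o)).toReal)) P ∧
      |Real.log (∫ o, Real.exp (-ν * (volume (sausage X Y a t o)).toReal) ∂P) + cE ν * √t| ≤
        C * (t : ℝ) ^ (1 / 4 : ℝ) := by
  obtain ⟨C, hC⟩ := main ν a hν ha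
  refine ⟨C, ?_⟩
  intro Ω _ P X Y hX hY hXY t ht
  have h : PBM P X Y := ⟨hX, hY, hXY⟩
  refine ⟨?_, integrable_surv h hν ha t, hC Ω P X Y h t ht⟩
  filter_upwards [hX.cont, hY.cont] with o h1 h2
  exact sausage_finite h1 h2 a t

end Pool.Agent.Results.MP_131163_pr.SecondOrder
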