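import Pool.Agent.BSs.Final

/-!
# MP_131163_pr: size and sign of the surface term

There are absolute constants `c, C, K > 0` such that for all `ν, a > 0` and all large `t`, with
`κ = ν a²` and `L(t) = log E[exp (-ν |W_t^a|)] + c(2,ν) √t`:

* `κ ≥ K`:   `-C √κ (ν t)^(1/4) ≤ L(t) ≤ -c √κ (ν t)^(1/4)`;
* `κ ≤ 1/K`: `L(t) ≥ c √(log (1/κ)) (ν t)^(1/4)`.
-/

open MeasureTheory ProbabilityTheory Pool.Agent.BSv Pool.Agent.BSs
open scoped ENNReal NNReal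

noncomputable section

namespace Pool.Agent.Results.MP_131163_pr.SurfaceTerm

theorem result : ∃ c C K : ℝ, 0 < c ∧ 0 < C ∧ 0 < K ∧ ∀ ν a : ℝ, 0 < ν → 0 < a →
    ∃ t0 : ℝ≥0, ∀ (Ω : Type) [MeasurableSpace Ω] (P : Measure Ω) (X Y : ℝ≥0 → Ω → ℝ),
      IsBrownianReal X P → IsBrownianReal Y P →
      IndepFun (fun o t => X t o) (fun o t => Y t o) P → ∀ t : ℝ≥0, t0 ≤ t →
      (∀ᵐ o ∂P, volume (sausage X Y a t o) ≠ ⊤) ∧
      Integrable (fun o => Real.exp (-ν * (volume (sausage X Y a t o)).toReal)) P ∧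
      (K ≤ ν * a ^ 2 →
        -(C * √(ν * a ^ 2) * (ν * t) ^ (1 / 4 : ℝ)) ≤
          Real.log (∫ o, Real.exp (-ν * (volume (sausage X Y a t o)).toReal) ∂P) + cE ν * √t ∧
        Real.log (∫ o, Real.exp (-ν * (volume (sausage X Y a t o)).toReal) ∂P) + cE ν * √t ≤
          -(c * √(ν * a ^ 2) * (ν * t) ^ (1 / 4 : ℝ))) ∧
      (ν * a ^ 2 ≤ 1 / K →
        c * √(Real.log (1 / (ν * a ^ 2))) * (ν * t) ^ (1 / 4 : ℝ) ≤
          Real.log (∫ o, Real.exp (-ν * (volume (sausage X Y a t o)).toReal) ∂P) +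
            cE ν * √t) := by
  obtain ⟨c, C, K, hc, hC, hK, hmain⟩ := main2
  refine ⟨c, C, K, hc, hC, by linarith, ?_⟩
  intro ν a hν ha
  obtain ⟨t0, ht0⟩ := hmain ν a hν ha
  refine ⟨t0, ?_⟩
  intro Ω _ P X Y hX hY hXY t ht
  have h : PBM P X Y := ⟨hX, hY, hXY⟩
  refine ⟨?_, integrable_surv h hν ha t, ?_⟩
  · filter_upwards [hX.cont, hY.cont] with o h1 h2
    exact sausage_finite h1 h2 a t
  · have := ht0 Ω P X Y h t ht
    rw [cE_eq]
    exact this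

end Pool.Agent.Results.MP_131163_pr.SurfaceTerm
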